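import Mathlib
import Pool.Agent.Lib.MP_f02ea4_nt.BE.GenA
import Pool.Agent.Lib.MP_f02ea4_nt.BE.TwoM3
import Pool.Agent.Lib.MP_f02ea4_nt.BE.ThinUse
import Pool.Agent.Lib.MP_f02ea4_nt.BE.Eul
import Pool.Agent.Lib.MP_f02ea4_nt.BE.CorTwo
import Pool.Agent.Lib.MP_f02ea4_nt.BE.CorLog
import Pool.Agent.Lib.MP_f02ea4_nt.BE.CorPart
import Pool.Agent.Lib.MP_f02ea4_nt.BE.CorGen
import Pool.Agent.Lib.MP_f02ea4_nt.BE.CorMany

set_option autoImplicit false

namespace Pool.Agent.Results.MP_f02ea4_nt.BoundedExponents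

/-- `N` is an odd perfect number, `v_q` the exponent of the prime `q` in `N`, `P` the largest prime
factor of `N`, `ω` the number of its prime factors; `d, e ≥ 2` are even. (1) If `N` is not divisible
by a sixth power then `P ≥ c (log N loglog N) ^ (3 / 2)` and `ω ≤ C P ^ (2 / 3) / (log P) ^ 2`. (2)
Let `d = 2`, `e ≥ 4` or `e > d ^ 2`. If all exponents apart from that of one prime `p` (arbitrary
exponent) and from exceptions with sum at most `K` are `d` or `e` then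
`P ≥ c (log N loglog N) ^ (1 + 1 / d)` and `ω ≤ C P ^ (d / (d + 1)) / (log P) ^ 2`. (3) The same with
`P ≥ c (log N) ^ (1 + 1 / d)` and `ω ≤ C P ^ (d / (d + 1)) / log P` for `e = d ^ 2`. (4) In (2) with
no exceptional `p`: the prime factors `q > c (ω (log ω) ^ 2) ^ (1 + 1 / d)` contribute at least
`c log N` to `log N`. (5) For every `N` and every `y ≥ 2`: in the cases of (2) at most
`40 e ^ 4 (S + T)` prime factors `q ≤ y` have `v_q ∈ {d, e}`, where `S` is the number of those with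
`q ^ (d + 1) ≤ (y + 1) ^ d` and `T` the sum of `v_q (1 + log q / log y)` over all other prime
factors. (6) For every `N`, `B ≥ 1` and `y ≥ 2`: if `W` prime factors `q ≤ y` have `v_q ≤ B`, `M` is
the sum of `v_q` over the other ones and `Z` the number of the `q` with `v_q ≤ B`,
`q ^ v_q ≤ y ^ (v_q - 1)` then `W ^ 3 ≤ 9261 B ^ 6 y ^ 2 (M + Z + 1)`. (7) If all `v_q ≤ B` then
`ω ≤ 27 B ^ 2 P ^ (1 - 1 / (3 B))` and at least `c ω ^ (1 - 2 / (3 B - 1))` prime factors are at least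
`c ω ^ (1 + 1 / (3 B - 1))`. (8) If `v_q ≤ B` (`B ≥ 3`) for all `q` but one, then
`ω ≤ C P ^ (1 - 1 / (3 B))` and `P ≥ c (log N / loglog N) ^ (1 + 1 / (3 B - 1))`. -/
theorem result :
    (∃ c : ℝ, 0 < c ∧ ∀ N P : ℕ, Odd N → Nat.Perfect N →
      P ∈ N.primeFactors → (∀ q ∈ N.primeFactors, q ≤ P) → (∀ n : ℕ, n ^ 6 ∣ N → n = 1) →
      c * (Real.log N * Real.log (Real.log N)) ^ (3 / 2 : ℝ) ≤ P ∧
      c * (N.primeFactors.card : ℝ) * (Real.log P) ^ 2 ≤ (P : ℝ) ^ (2 / 3 : ℝ)) ∧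
    (∀ d e K : ℕ, Even d → Even e → 2 ≤ d → (d = 2 ∧ 4 ≤ e ∨ d ^ 2 < e) → ∃ c : ℝ, 0 < c ∧
      ∀ N P p : ℕ, Odd N → Nat.Perfect N → P ∈ N.primeFactors → (∀ q ∈ N.primeFactors, q ≤ P) →
      (∑ q ∈ N.primeFactors.filter
        (fun q => q ≠ p ∧ N.factorization q ≠ d ∧ N.factorization q ≠ e), N.factorization q) ≤ K →
      c * (Real.log N * Real.log (Real.log N)) ^ (1 + 1 / (d : ℝ)) ≤ P ∧
      c * (N.primeFactors.card : ℝ) * (Real.log P) ^ 2 ≤ (P : ℝ) ^ ((d : ℝ) / (d + 1))) ∧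
    (∀ d e K : ℕ, Even d → 2 ≤ d → e = d ^ 2 → ∃ c : ℝ, 0 < c ∧
      ∀ N P p : ℕ, Odd N → Nat.Perfect N → P ∈ N.primeFactors → (∀ q ∈ N.primeFactors, q ≤ P) →
      (∑ q ∈ N.primeFactors.filter
        (fun q => q ≠ p ∧ N.factorization q ≠ d ∧ N.factorization q ≠ e), N.factorization q) ≤ K →
      c * (Real.log N) ^ (1 + 1 / (d : ℝ)) ≤ P ∧
      c * (N.primeFactors.card : ℝ) * Real.log P ≤ (P : ℝ) ^ ((d : ℝ) / (d + 1))) ∧
    (∀ d e K : ℕ, Even d → Even e → 2 ≤ d → (d = 2 ∧ 4 ≤ e ∨ d ^ 2 < e) → ∃ c : ℝ, 0 < c ∧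
      ∀ N : ℕ, Odd N → Nat.Perfect N →
      (∑ q ∈ N.primeFactors.filter
        (fun q => N.factorization q ≠ d ∧ N.factorization q ≠ e), N.factorization q) ≤ K →
      c * Real.log N ≤ ∑ q ∈ N.primeFactors.filter (fun q : ℕ =>
        c * ((N.primeFactors.card : ℝ) * (Real.log (N.primeFactors.card : ℝ)) ^ 2) ^
          (1 + 1 / (d : ℝ)) < (q : ℝ)), (N.factorization q : ℝ) * Real.log q) ∧
    (∀ d e : ℕ, Even d → Even e → 2 ≤ d → (d = 2 ∧ 4 ≤ e ∨ d ^ 2 < e) →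
      ∀ N y : ℕ, Odd N → Nat.Perfect N → 2 ≤ y →
      ((N.primeFactors.filter
        (fun q => q ≤ y ∧ (N.factorization q = d ∨ N.factorization q = e))).card : ℝ) ≤
      40 * (e : ℝ) ^ 4 * (((N.primeFactors.filter
        (fun q => (N.factorization q = d ∨ N.factorization q = e) ∧
          q ^ (d + 1) ≤ (y + 1) ^ d)).card : ℝ) +
        ∑ q ∈ N.primeFactors.filter
          (fun q => ¬ (q ≤ y ∧ (N.factorization q = d ∨ N.factorization q = e))),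
          (N.factorization q : ℝ) * (1 + Real.log q / Real.log y))) ∧
    (∀ N B : ℕ, ∀ y : ℝ, Odd N → Nat.Perfect N → 1 ≤ B → 2 ≤ y →
      ((N.primeFactors.filter
        (fun q : ℕ => (q : ℝ) ≤ y ∧ N.factorization q ≤ B)).card : ℝ) ^ 3 ≤
      9261 * (B : ℝ) ^ 6 * y ^ 2 *
        ((∑ q ∈ N.primeFactors.filter (fun q : ℕ => ¬ ((q : ℝ) ≤ y ∧ N.factorization q ≤ B)),
          (N.factorization q : ℝ)) +
        ((N.primeFactors.filter (fun q : ℕ => N.factorization q ≤ B ∧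
          (q : ℝ) ^ N.factorization q ≤ y ^ (N.factorization q - 1))).card : ℝ) + 1)) ∧
    (∀ B : ℕ, 1 ≤ B → ∃ c : ℝ, 0 < c ∧ ∀ N P : ℕ, Odd N → Nat.Perfect N →
      P ∈ N.primeFactors → (∀ q ∈ N.primeFactors, q ≤ P) →
      (∀ q ∈ N.primeFactors, N.factorization q ≤ B) →
      (N.primeFactors.card : ℝ) ≤ 27 * (B : ℝ) ^ 2 * (P : ℝ) ^ (1 - 1 / (3 * (B : ℝ))) ∧
      c * (N.primeFactors.card : ℝ) ^ (1 - 2 / (3 * (B : ℝ) - 1)) ≤
        ((N.primeFactors.filter (fun q : ℕ =>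
          c * (N.primeFactors.card : ℝ) ^ (1 + 1 / (3 * (B : ℝ) - 1)) ≤ (q : ℝ))).card : ℝ)) ∧
    (∀ B : ℕ, 3 ≤ B → ∃ c : ℝ, 0 < c ∧ ∀ N P p : ℕ, Odd N → Nat.Perfect N →
      P ∈ N.primeFactors → (∀ q ∈ N.primeFactors, q ≤ P) →
      (∀ q ∈ N.primeFactors, q ≠ p → N.factorization q ≤ B) →
      c * (N.primeFactors.card : ℝ) ≤ (P : ℝ) ^ (1 - 1 / (3 * (B : ℝ))) ∧
      c * (Real.log N / Real.log (Real.log N)) ^ (1 + 1 / (3 * (B : ℝ) - 1)) ≤ P) := by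
  have two' : ∀ d e : ℕ, Even d → Even e → 2 ≤ d → (d = 2 ∧ 4 ≤ e ∨ d ^ 2 < e) →
      Pool.Agent.BE.TwoIneq' d e := by
    rintro d e hd he h2 (⟨rfl, h4⟩ | h)
    · exact Pool.Agent.BE.two_ineq3 he h4
    · exact Pool.Agent.BE.two_ineq' hd he h2 h
  have hle : ∀ d e : ℕ, 2 ≤ d → (d = 2 ∧ 4 ≤ e ∨ d ^ 2 < e) → d ≤ e := by
    rintro d e h2 (⟨rfl, h4⟩ | h)
    · omega
    · nlinarith
  have first : ∀ d e K : ℕ, Even d → Even e → 2 ≤ d → (d = 2 ∧ 4 ≤ e ∨ d ^ 2 < e) →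
      ∃ c : ℝ, 0 < c ∧ ∀ N P p : ℕ, Odd N → Nat.Perfect N → P ∈ N.primeFactors →
      (∀ q ∈ N.primeFactors, q ≤ P) →
      (∑ q ∈ N.primeFactors.filter
        (fun q => q ≠ p ∧ N.factorization q ≠ d ∧ N.factorization q ≠ e), N.factorization q) ≤ K →
      c * (Real.log N * Real.log (Real.log N)) ^ (1 + 1 / (d : ℝ)) ≤ P ∧
      c * (N.primeFactors.card : ℝ) * (Real.log P) ^ 2 ≤ (P : ℝ) ^ ((d : ℝ) / (d + 1)) :=
    fun d e K hd he h2 h =>
      Pool.Agent.BE.cor_log Pool.Agent.BE.thin Pool.Agent.BE.euler_exp h2 (hle d e h2 h)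
        (two' d e hd he h2 h) K
  refine ⟨?_, first, fun d e K hd h2 he => ?_, fun d e K hd he h2 h => ?_,
    fun d e hd he h2 h => two' d e hd he h2 h, Pool.Agent.BE.gen_ineq, fun B hB => ?_,
    fun B hB => Pool.Agent.BE.cor_gen Pool.Agent.BE.gen_ineq Pool.Agent.BE.euler_exp B hB⟩
  · obtain ⟨c, hc, h⟩ := first 2 4 0 even_two (by decide) le_rfl (Or.inl ⟨rfl, le_rfl⟩)
    refine ⟨c, hc, fun N P ho hN hP hmax h6 => ?_⟩
    obtain ⟨p, hp, hpo⟩ := Pool.Agent.BE.exists_odd ho hN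
    have h1 := h N P p ho hN hP hmax (by
      rw [Finset.filter_eq_empty_iff.2]
      · simp
      · rintro q hq ⟨hqp, hq2, hq4⟩
        have hcard := Pool.Agent.BE.card_odd_le ho hN
        rw [Finset.card_le_one] at hcard
        have hqp' := Nat.prime_of_mem_primeFactors hq
        have hlt : N.factorization q < 6 := by
          by_contra hcon
          push Not at hcon
          have h7 : q ^ 6 ∣ N := (hqp'.pow_dvd_iff_le_factorization hN.2.ne').2 hcon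
          exact hqp'.one_lt.ne' (h6 q h7)
        have hpos := Pool.Agent.BE.fac_pos hq
        have hodd : Odd (N.factorization q) := by
          rw [Nat.odd_iff]
          omega
        exact hqp (hcard q (Finset.mem_filter.2 ⟨hq, hodd⟩) p (Finset.mem_filter.2 ⟨hp, hpo⟩)))
    have e1 : (1 + 1 / ((2 : ℕ) : ℝ)) = (3 / 2 : ℝ) := by norm_num
    have e2 : ((2 : ℕ) : ℝ) / (((2 : ℕ) : ℝ) + 1) = (2 / 3 : ℝ) := by norm_num
    rw [e1, e2] at h1
    exact h1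
  · have he' : Even e := by rw [he]; exact hd.pow_of_ne_zero (by norm_num)
    exact Pool.Agent.BE.cor_two Pool.Agent.BE.thin Pool.Agent.BE.euler_exp h2 he.ge
      (Pool.Agent.BE.two_ineq hd he' h2 he.ge) K
  · exact Pool.Agent.BE.cor_part Pool.Agent.BE.thin h2 (hle d e h2 h) (two' d e hd he h2 h) K
  · obtain ⟨c, hc, h⟩ := Pool.Agent.BE.cor_many Pool.Agent.BE.gen_ineq B hB
    refine ⟨c, hc, fun N P ho hN hP hmax hexp => ⟨?_, h N ho hN hexp⟩⟩
    exact Pool.Agent.BE.cor_explicit Pool.Agent.BE.gen_ineq hB ho hN hP hmax hexp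

end Pool.Agent.Results.MP_f02ea4_nt.BoundedExponents
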