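import Pool.Agent.Lib.MP_f02ea4_nt.RS_V
import Pool.Agent.Lib.MP_f02ea4_nt.EF_Main

/-! # Robust Steuerwald theorem without the Euler factor -/

namespace Pool.Agent.Results.MP_f02ea4_nt.EulerFreeSteuerwald

open Finset ArithmeticFunction Pool.Agent.OPNRS Pool.Agent.OPNEF

lemma log_three_ge_one : (1 : ℝ) ≤ Real.log 3 := by
  have := Real.log_three_gt_d9
  linarith

/-- Bound for the component `p ^ a`, `3 ∤ m`. -/
lemma pbound_of_not {N p a D m k : ℕ} (hN : N.Perfect) (hodd : Odd N) (h : N = p ^ a * D * m ^ 2)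
    (hp : p.Prime) (ha : 1 ≤ a) (hm : Squarefree m) (hpD : p.Coprime D) (hpm : p.Coprime m)
    (hDm : D.Coprime m) (hk : (m.primeFactors.filter (fun q => q % 3 = 1)).card ≤ k)
    (h3 : ¬ 3 ∣ m) :
    ((a : ℝ) + 1) * Real.log p ≤ 1000 * 729 ^ k * (1 + Real.log D) :=
  (dat_of hN hodd h hp ha hm hpD hpm hDm h3).bound hk

/-- Bound for the component `p ^ a`. -/
lemma pbound {N p a D m k : ℕ} (hN : N.Perfect) (hodd : Odd N) (h : N = p ^ a * D * m ^ 2)
    (hp : p.Prime) (ha : 1 ≤ a) (hm : Squarefree m) (hpD : p.Coprime D) (hpm : p.Coprime m)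
    (hDm : D.Coprime m) (hk : (m.primeFactors.filter (fun q => q % 3 = 1)).card ≤ k) :
    ((a : ℝ) + 1) * Real.log p ≤ 1000 * 729 ^ k * (1 + Real.log (9 * D)) := by
  have hD0 : 0 < D := by
    rcases Nat.eq_zero_or_pos D with h0 | h0
    · exfalso
      rw [h0] at h
      have := hN.2
      rw [h] at this
      simp at this
    · exact h0
  have hD1 : (1 : ℝ) ≤ D := by exact_mod_cast hD0
  by_cases h3 : 3 ∣ m
  · obtain ⟨n, rfl⟩ := h3
    have hn : Squarefree n := hm.squarefree_of_dvd (dvd_mul_left _ _)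
    have hcop : Nat.Coprime 3 n := (Nat.squarefree_mul_iff.1 hm).1
    have hp3 : p.Coprime 3 := Nat.Coprime.coprime_dvd_right (dvd_mul_right _ _) hpm
    have hpn : p.Coprime n := Nat.Coprime.coprime_dvd_right (dvd_mul_left _ _) hpm
    have hDn : D.Coprime n := Nat.Coprime.coprime_dvd_right (dvd_mul_left _ _) hDm
    have h' : N = p ^ a * (D * 3 ^ 2) * n ^ 2 := by rw [h]; ring
    have hpD' : p.Coprime (D * 3 ^ 2) := Nat.Coprime.mul_right hpD (Nat.Coprime.pow_right 2 hp3)
    have hDn' : (D * 3 ^ 2).Coprime n := Nat.Coprime.mul_left hDn (Nat.Coprime.pow_left 2 hcop)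
    have hn3 : ¬ 3 ∣ n := fun hd => by
      have := Nat.Coprime.eq_one_of_dvd hcop hd
      omega
    have hsub : (n.primeFactors.filter (fun q => q % 3 = 1)).card ≤ k := by
      refine le_trans (Finset.card_le_card ?_) hk
      exact Finset.filter_subset_filter _
        (Nat.primeFactors_mono (dvd_mul_left _ _) hm.ne_zero)
    have := pbound_of_not hN hodd h' hp ha hn hpD' hpn hDn' hsub hn3
    have e : ((D * 3 ^ 2 : ℕ) : ℝ) = 9 * D := by push_cast; ring
    rwa [e] at this
  · refine (pbound_of_not hN hodd h hp ha hm hpD hpm hDm hk h3).trans ?_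
    have : Real.log D ≤ Real.log (9 * D) := Real.log_le_log (by positivity) (by linarith)
    gcongr

/-- **Robust Steuerwald theorem without the Euler factor.**  Let `N = p ^ a * D * m ^ 2` be an odd
perfect number, `p` prime, `a ≥ 1` arbitrary, `m` squarefree, `p`, `D`, `m` pairwise coprime
(e.g. `p ^ a` the Euler factor and `D` the product of the other components `q ^ e ‖ N` with
`e ≠ 2`, hence `e ≥ 4`).  Let `k` be the number of primes `1 mod 3` dividing `m`.  Then `N` is
bounded in terms of `D` and `k`, and `k ≤ v_3(N)`. -/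
theorem result (N p a D m k : ℕ) (hN : N.Perfect) (hodd : Odd N) (h : N = p ^ a * D * m ^ 2)
    (hp : p.Prime) (ha : 1 ≤ a) (hm : Squarefree m) (hpD : p.Coprime D) (hpm : p.Coprime m)
    (hDm : D.Coprime m) (hk : k = (m.primeFactors.filter (fun q => q % 3 = 1)).card) :
    k ≤ N.factorization 3 ∧
    p ^ (a + 1) ≤ (27 * D) ^ (1000 * 729 ^ k) ∧
    N ≤ (27 * D) ^ (2003 * (k + 1) * 729 ^ k) ∧
    (¬ 3 ∣ N → N ≤ (3 * D) ^ 2003) ∧
    (¬ 27 ∣ N → N ≤ (27 * D) ^ (4 * 10 ^ 9)) ∧
    (p ≠ 3 → Real.log N ≤ 2 * 10 ^ 10 * (D : ℝ) ^ 7) ∧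
    (a = 1 → N < (2 * D + 2) ^ 2 ^ (k + 3) ∧
      Real.log N ≤ 32 * (D : ℝ) ^ (Real.logb 3 2) * Real.log (2 * D + 2)) := by
  have hc : (p ^ a * D).Coprime m := Nat.Coprime.mul_left (Nat.Coprime.pow_left a hpm) hDm
  have he := main_eq hN h hm hc
  have hoddN : Odd (p ^ a * D * m ^ 2) := h ▸ hodd
  have hm0 := hm.ne_zero
  have hN0 : N ≠ 0 := hN.2.ne'
  have hD0 : 0 < D := by
    rcases Nat.eq_zero_or_pos D with h0 | h0
    · exfalso
      rw [h0] at h
      simp at h
      exact hN0 h
    · exact h0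
  have hD1 : (1 : ℝ) ≤ D := by exact_mod_cast hD0
  have hNpos : (0 : ℝ) < N := by exact_mod_cast Nat.pos_of_ne_zero hN0
  have hp0 : (0 : ℝ) < p := by exact_mod_cast hp.pos
  have hlogp : 0 ≤ Real.log p := Real.log_nonneg (by exact_mod_cast hp.one_le)
  set L := Real.log D with hL
  have hL0 : 0 ≤ L := Real.log_nonneg hD1
  have hlog3 : (1.0986 : ℝ) < Real.log 3 := by
    have := Real.log_three_gt_d9
    linarith
  have hlog3' : Real.log 3 < 1.09862 := by
    have := Real.log_three_lt_d9
    linarith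
  have hkv : k ≤ N.factorization 3 := by
    rw [hk, h]
    exact card_le hoddN he
  have hsize : N ≤ 3 ^ (k + 2) * (p ^ a * D) ^ (2 * k + 2) := by
    have h1 := m_bound hoddN hm he filter_zero_sq
    rw [← hk] at h1
    calc N = p ^ a * D * m ^ 2 := h
      _ ≤ p ^ a * D * (p ^ a * D * ((3 * (p ^ a * D) ^ 2) ^ k * 9)) := Nat.mul_le_mul_left _ h1
      _ = 3 ^ (k + 2) * (p ^ a * D) ^ (2 * k + 2) := by rw [mul_pow]; ring
  have hsize3 : ¬ 3 ∣ m → N ≤ 3 ^ k * (p ^ a * D) ^ (2 * k + 2) := by
    intro h3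
    have h1 := m_bound hoddN hm he (filter_zero_one h3)
    rw [← hk] at h1
    calc N = p ^ a * D * m ^ 2 := h
      _ ≤ p ^ a * D * (p ^ a * D * ((3 * (p ^ a * D) ^ 2) ^ k * 1)) := Nat.mul_le_mul_left _ h1
      _ = 3 ^ k * (p ^ a * D) ^ (2 * k + 2) := by rw [mul_pow]; ring
  -- logarithmic forms
  have hlsize : Real.log N ≤ (k + 2) * Real.log 3 + (2 * k + 2) * (a * Real.log p + L) := by
    have h1 : (N : ℝ) ≤ 3 ^ (k + 2) * ((p : ℝ) ^ a * D) ^ (2 * k + 2) := by exact_mod_cast hsize
    have h2 := Real.log_le_log hNpos h1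
    rw [Real.log_mul (by positivity) (by positivity), Real.log_pow, Real.log_pow,
      Real.log_mul (by positivity) (by positivity), Real.log_pow] at h2
    push_cast at h2
    exact h2
  have hlsize3 : ¬ 3 ∣ m →
      Real.log N ≤ k * Real.log 3 + (2 * k + 2) * (a * Real.log p + L) := by
    intro h3
    have h1 : (N : ℝ) ≤ 3 ^ k * ((p : ℝ) ^ a * D) ^ (2 * k + 2) := by exact_mod_cast hsize3 h3
    have h2 := Real.log_le_log hNpos h1
    rw [Real.log_mul (by positivity) (by positivity), Real.log_pow, Real.log_pow,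
      Real.log_mul (by positivity) (by positivity), Real.log_pow] at h2
    push_cast at h2
    exact h2
  have hpb := pbound hN hodd h hp ha hm hpD hpm hDm hk.ge
  have h27 : Real.log (27 * D) = 3 * Real.log 3 + L := by
    rw [Real.log_mul (by norm_num) (by positivity), show (27 : ℝ) = 3 ^ 3 by norm_num, Real.log_pow]
    push_cast
    rfl
  have h9 : Real.log (9 * D) = 2 * Real.log 3 + L := by
    rw [Real.log_mul (by norm_num) (by positivity), show (9 : ℝ) = 3 ^ 2 by norm_num, Real.log_pow]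
    push_cast
    rfl
  set W := Real.log (27 * D) with hW
  have hW9 : 1 + Real.log (9 * D) ≤ W := by
    rw [h27, h9]
    linarith
  set K : ℝ := 729 ^ k with hK
  have hK1 : 1 ≤ K := one_le_pow₀ (by norm_num)
  have hk0 : (0 : ℝ) ≤ k := Nat.cast_nonneg k
  have hpb' : ((a : ℝ) + 1) * Real.log p ≤ 1000 * K * W := by
    refine hpb.trans ?_
    gcongr
  have hNb : Real.log N ≤ 2003 * (k + 1) * K * W := by
    have hW0 : 0 ≤ W := by
      rw [h27]
      linarith
    have h1 : (k + 2) * Real.log 3 ≤ (k + 1) * W := by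
      have : (k + 2 : ℝ) * Real.log 3 ≤ (k + 1) * (3 * Real.log 3) := by nlinarith
      have : (k + 1 : ℝ) * (3 * Real.log 3) ≤ (k + 1) * W := by
        apply mul_le_mul_of_nonneg_left _ (by linarith)
        rw [h27]
        linarith
      linarith
    have h2 : a * Real.log p + L ≤ 1000 * K * W + W := by
      have : L ≤ W := by
        rw [h27]
        linarith
      linarith
    have h3 : (2 * k + 2 : ℝ) * (a * Real.log p + L) ≤ (2 * k + 2) * (1000 * K * W + W) :=
      mul_le_mul_of_nonneg_left h2 (by linarith)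
    have h4 : (k + 1 : ℝ) * W ≤ (k + 1) * (K * W) := by
      apply mul_le_mul_of_nonneg_left _ (by linarith)
      exact le_mul_of_one_le_left hW0 hK1
    calc Real.log N ≤ (k + 2) * Real.log 3 + (2 * k + 2) * (a * Real.log p + L) := hlsize
      _ ≤ (k + 1) * W + (2 * k + 2) * (1000 * K * W + W) := add_le_add h1 h3
      _ = 2000 * ((k + 1) * (K * W)) + 3 * ((k + 1) * W) := by ring
      _ ≤ 2000 * ((k + 1) * (K * W)) + 3 * ((k + 1) * (K * W)) := by linarith
      _ = _ := by ring
  have hmainN : N ≤ (27 * D) ^ (2003 * (k + 1) * 729 ^ k) := by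
    have h1 : Real.log N ≤ Real.log ((27 * (D : ℝ)) ^ (2003 * (k + 1) * 729 ^ k)) := by
      rw [Real.log_pow, ← hW]
      push_cast
      exact hNb
    have h2 := (Real.log_le_log_iff hNpos (by positivity)).1 h1
    exact_mod_cast h2
  refine ⟨hkv, ?_, hmainN, ?_, ?_, ?_, ?_⟩
  · have h1 : Real.log ((p : ℝ) ^ (a + 1)) ≤ Real.log ((27 * (D : ℝ)) ^ (1000 * 729 ^ k)) := by
      rw [Real.log_pow, Real.log_pow, ← hW]
      push_cast
      exact hpb'
    have h2 := (Real.log_le_log_iff (by positivity) (by positivity)).1 h1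
    exact_mod_cast h2
  · intro h3
    have hk0' : k = 0 := by
      have := Nat.factorization_eq_zero_of_not_dvd h3
      omega
    have h3m : ¬ 3 ∣ m := fun hd =>
      h3 (h ▸ (hd.trans ((dvd_pow_self m two_ne_zero).trans (dvd_mul_left _ _))))
    have h4 := hlsize3 h3m
    have h5 := pbound_of_not hN hodd h hp ha hm hpD hpm hDm hk.ge h3m
    rw [hk0'] at h4 h5
    have h6 : Real.log N ≤ Real.log ((3 * (D : ℝ)) ^ 2003) := by
      rw [Real.log_pow, Real.log_mul (by norm_num) (by positivity), ← hL]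
      push_cast at h4 ⊢
      rw [← hL] at h5
      simp only [pow_zero] at h5
      nlinarith
    have h7 := (Real.log_le_log_iff hNpos (by positivity)).1 h6
    exact_mod_cast h7
  · intro h27N
    have hk2 : k ≤ 2 := by
      by_contra hcon
      apply h27N
      have h1 : 3 ^ 3 ∣ N := (Nat.Prime.pow_dvd_iff_le_factorization Nat.prime_three hN0).2
        (by omega)
      simpa using h1
    refine hmainN.trans (Nat.pow_le_pow_right (by omega) ?_)
    calc 2003 * (k + 1) * 729 ^ k ≤ 2003 * (2 + 1) * 729 ^ 2 := by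
          gcongr
          norm_num
      _ ≤ 4 * 10 ^ 9 := by norm_num
  · intro hp3
    by_cases h3 : 3 ∣ m
    · -- `v_3(N) = 2`
      have hv2 : N.factorization 3 = 2 := by
        have hpa0 : p ^ a * D ≠ 0 := (Nat.mul_pos (pow_pos hp.pos a) hD0).ne'
        rw [h, Nat.factorization_mul hpa0 (by positivity)]
        have h3D : ¬ 3 ∣ p ^ a * D := fun hd => Nat.not_coprime_of_dvd_of_dvd (by norm_num) hd h3 hc
        have h4 : (p ^ a * D).factorization 3 = 0 := Nat.factorization_eq_zero_of_not_dvd h3D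
        have h5 : m.factorization 3 = 1 := by
          have h6 := (Nat.squarefree_iff_factorization_le_one hm0).1 hm 3
          have h7 := (Nat.Prime.dvd_iff_one_le_factorization Nat.prime_three hm0).1 h3
          omega
        rw [Finsupp.add_apply, h4, Nat.factorization_pow, Finsupp.smul_apply, h5]
        rfl
      have hk2 : k ≤ 2 := hv2 ▸ hkv
      have hk2' : (k : ℝ) ≤ 2 := by exact_mod_cast hk2
      have hK2 : K ≤ 531441 := by
        calc K ≤ 729 ^ 2 := pow_le_pow_right₀ (by norm_num) hk2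
          _ = 531441 := by norm_num
      have hWD : W ≤ 4 * (D : ℝ) ^ 7 := by
        rw [h27]
        have h1 : L ≤ D - 1 := Real.log_le_sub_one_of_pos (by positivity)
        have h2 : (D : ℝ) ≤ D ^ 7 := le_self_pow₀ hD1 (by norm_num)
        linarith
      have hW0 : 0 ≤ W := by
        rw [h27]
        linarith
      calc Real.log N ≤ 2003 * (k + 1) * K * W := hNb
        _ ≤ 2003 * (2 + 1) * 531441 * (4 * (D : ℝ) ^ 7) := by gcongr
        _ ≤ 2 * 10 ^ 10 * (D : ℝ) ^ 7 := by
            have : (0 : ℝ) ≤ (D : ℝ) ^ 7 := by positivity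
            nlinarith
    · -- `3 ^ k ∣ D`
      have hv : N.factorization 3 = D.factorization 3 := by
        have hpa0 : p ^ a ≠ 0 := (pow_pos hp.pos a).ne'
        rw [h, Nat.factorization_mul (Nat.mul_pos (pow_pos hp.pos a) hD0).ne' (by positivity),
          Nat.factorization_mul hpa0 hD0.ne']
        have h1 : m.factorization 3 = 0 := Nat.factorization_eq_zero_of_not_dvd h3
        have h2 : p.factorization 3 = 0 := by
          apply Nat.factorization_eq_zero_of_not_dvd
          intro hd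
          exact hp3 ((Nat.prime_dvd_prime_iff_eq Nat.prime_three hp).1 hd).symm
        simp [h1, h2]
      have h3k : 3 ^ k ≤ D := by
        have h1 : 3 ^ k ∣ D := (Nat.Prime.pow_dvd_iff_le_factorization Nat.prime_three hD0.ne').2
          (hv ▸ hkv)
        exact Nat.le_of_dvd hD0 h1
      have h3k' : (3 : ℝ) ^ k ≤ D := by exact_mod_cast h3k
      have hK6 : K ≤ (D : ℝ) ^ 6 := by
        calc K = ((3 : ℝ) ^ k) ^ 6 := by
              rw [hK, ← pow_mul, mul_comm k 6, pow_mul]
              norm_num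
          _ ≤ (D : ℝ) ^ 6 := by gcongr
      have hkL : (k : ℝ) * Real.log 3 ≤ L := by
        have := Real.log_le_log (by positivity) h3k'
        rwa [Real.log_pow] at this
      have hkL' : (k : ℝ) ≤ L := by nlinarith
      have hL2 : (L + 1) * (L + 4) ≤ 20 * D := by
        have h1 : Real.log ((D : ℝ) ^ (1 / 2 : ℝ)) ≤ (D : ℝ) ^ (1 / 2 : ℝ) - 1 :=
          Real.log_le_sub_one_of_pos (by positivity)
        rw [Real.log_rpow (by positivity)] at h1
        set r : ℝ := (D : ℝ) ^ (1 / 2 : ℝ) with hr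
        have h2 : r ^ 2 = D := by
          rw [hr, ← Real.rpow_natCast, ← Real.rpow_mul (by positivity)]
          norm_num
        have h3 : 1 ≤ r := Real.one_le_rpow hD1 (by norm_num)
        have h4 : L ≤ 2 * r - 2 := by linarith
        rw [← h2]
        nlinarith
      have hW0 : 0 ≤ W := by
        rw [h27]
        linarith
      have hW4 : W ≤ L + 4 := by
        rw [h27]
        linarith
      calc Real.log N ≤ 2003 * (k + 1) * K * W := hNb
        _ ≤ 2003 * (L + 1) * (D : ℝ) ^ 6 * (L + 4) := by gcongr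
        _ = 2003 * (D : ℝ) ^ 6 * ((L + 1) * (L + 4)) := by ring
        _ ≤ 2003 * (D : ℝ) ^ 6 * (20 * D) := by gcongr
        _ = 40060 * (D : ℝ) ^ 7 := by ring
        _ ≤ 2 * 10 ^ 10 * (D : ℝ) ^ 7 := by
            have : (0 : ℝ) ≤ (D : ℝ) ^ 7 := by positivity
            nlinarith
  · rintro rfl
    rw [pow_one] at h hc
    have hodd' : Odd (p * D * m ^ 2) := h ▸ hodd
    have hN' : (p * D * m ^ 2).Perfect := h ▸ hN
    have h1 := q_bound hp hpD hc hm hodd' hN'
    have h2 := log_q_bound hp hpD hc hm hodd' hN'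
    rw [← h] at h1 h2
    rw [← hk] at h1
    exact ⟨h1, h2⟩

end Pool.Agent.Results.MP_f02ea4_nt.EulerFreeSteuerwald
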