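import Mathlib
import Pool.Agent.Lib.MP_f02ea4_nt.Mg.G006

set_option autoImplicit false

namespace Pool.Agent.Results.MP_f02ea4_nt.IndexBound

/-- `2 ^ Ω(i) ≤ i`. -/
theorem two_pow_cardFactors_le {i : ℕ} (hi : i ≠ 0) :
    2 ^ ArithmeticFunction.cardFactors i ≤ i := by
  rw [ArithmeticFunction.cardFactors_apply]
  calc 2 ^ i.primeFactorsList.length ≤ i.primeFactorsList.prod :=
        List.pow_card_le_prod _ _ (fun q hq => (Nat.prime_of_mem_primeFactorsList hq).two_le)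
    _ = i := Nat.prod_primeFactorsList hi

/-- From `log N ≤ 800 Ω(i) log i` to `exp (√(log N) / 34) ≤ i`. -/
theorem exp_sqrt_le {x : ℝ} {i : ℕ} (hi : i ≠ 0)
    (h : x ≤ Real.log i * (800 * (ArithmeticFunction.cardFactors i : ℝ))) :
    Real.exp (√x / 34) ≤ i := by
  have hi0 : (0 : ℝ) < i := by exact_mod_cast Nat.pos_of_ne_zero hi
  have hL : 0 ≤ Real.log (i : ℝ) := Real.log_natCast_nonneg i
  have h1 : (ArithmeticFunction.cardFactors i : ℝ) * Real.log 2 ≤ Real.log i := by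
    have h2 : ((2 : ℝ) ^ ArithmeticFunction.cardFactors i) ≤ i := by
      exact_mod_cast two_pow_cardFactors_le hi
    have h3 := Real.log_le_log (by positivity) h2
    rwa [Real.log_pow] at h3
  have hlog2 : (0.6931471803 : ℝ) < Real.log 2 := Real.log_two_gt_d9
  have h2 : (ArithmeticFunction.cardFactors i : ℝ) * 0.6931471803 ≤ Real.log i :=
    le_trans (mul_le_mul_of_nonneg_left hlog2.le (Nat.cast_nonneg _)) h1
  have h3 : x ≤ (34 * Real.log i) ^ 2 := by nlinarith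
  have h4 : √x ≤ 34 * Real.log i := Real.sqrt_le_left (by positivity) |>.mpr h3 
  rw [← Real.le_log_iff_exp_le hi0]
  linarith

/-- From `p ^ (2 k) * i < 2 N` and `exp (x / 34) ≤ i` to `p ^ k < √(2 N) * exp (-x / 68)`. -/
theorem lt_sqrt_exp {N p k i : ℕ} {x : ℝ} (hp : p.Prime) (h : p ^ (2 * k) * i < 2 * N)
    (hi : Real.exp (x / 34) ≤ i) : (p : ℝ) ^ k < √(2 * N) * Real.exp (-(x / 68)) := by
  have hp0 : (0 : ℝ) < p := by exact_mod_cast hp.pos
  have h1 : ((p : ℝ)) ^ (2 * k) * i < 2 * N := by exact_mod_cast h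
  have h2 : ((p : ℝ) ^ k) ^ 2 * Real.exp (x / 34) < 2 * N := by
    refine lt_of_le_of_lt ?_ h1
    rw [← pow_mul, mul_comm k 2]
    exact mul_le_mul_of_nonneg_left hi (by positivity)
  refine lt_of_pow_lt_pow_left₀ 2 (by positivity) ?_
  rw [mul_pow, Real.sq_sqrt (by positivity), ← Real.exp_nat_mul]
  have h3 : ((2 : ℕ) : ℝ) * -(x / 68) = -(x / 34) := by push_cast; ring
  rw [h3, Real.exp_neg, ← div_eq_mul_inv, lt_div_iff₀ (Real.exp_pos _)]
  exact h2

/-- Lower bounds for the index of an odd perfect number at any of its prime powers. Let `N` be an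
odd perfect number, `p` a prime and `N = p ^ k * M` with `p` not dividing `M`. Then `p ^ k` divides
`σ(M)`, the index `i = σ(M) / p ^ k` satisfies
`log N ≤ log i * min (800 * Ω(i)) (min (62 * k + 1) (60000 * log p + 1))`, so always
`exp (√(log N) / 34) ≤ i`, and `ω(N) ≤ 4 Ω(i) + 4`, and if `k ≠ 0` then `p ^ k < √(2 N) * exp (-√(log N) / 68)` and `p ^ k < √2 * N ^ (1 / 2 - 1 / (2 * min (62 * k + 1) (60000 * log p + 1)))`. -/
theorem result {N p k M : ℕ} (hodd : Odd N) (hperf : Nat.Perfect N) (hp : p.Prime)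
    (hpM : ¬ p ∣ M) (hNM : N = p ^ k * M) :
    p ^ k ∣ ArithmeticFunction.sigma 1 M ∧
    Real.log N ≤
      Real.log ((ArithmeticFunction.sigma 1 M / p ^ k : ℕ) : ℝ) *
        min (800 * (ArithmeticFunction.cardFactors (ArithmeticFunction.sigma 1 M / p ^ k) : ℝ))
          (min (62 * k + 1) (60000 * Real.log p + 1)) ∧
    Real.exp (√(Real.log N) / 34) ≤ ((ArithmeticFunction.sigma 1 M / p ^ k : ℕ) : ℝ) ∧
    N.primeFactors.card ≤
      4 * ArithmeticFunction.cardFactors (ArithmeticFunction.sigma 1 M / p ^ k) + 4 ∧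
    (k ≠ 0 → (p : ℝ) ^ k < √(2 * N) * Real.exp (-(√(Real.log N) / 68)) ∧ (p : ℝ) ^ k <
      √2 * (N : ℝ) ^ ((1 : ℝ) / 2 - 1 / (2 * min (62 * (k : ℝ) + 1) (60000 * Real.log p + 1)))) := by
  obtain ⟨h1, -, h3⟩ := Pool.Agent.Lib.MP_f02ea4_nt.Idx.main hodd hperf hp hpM hNM
  obtain ⟨-, h3'⟩ := Pool.Agent.Lib.MP_f02ea4_nt.Idx.main_k hodd hperf hp hpM hNM
  have h2 := Pool.Agent.Lib.MP_f02ea4_nt.Idx.main_cs hodd hperf hp hpM hNM
  have h6 := Pool.Agent.Lib.MP_f02ea4_nt.IdxOmega.omega_le hodd hperf hp hpM hNM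
  set i : ℕ := ArithmeticFunction.sigma 1 M / p ^ k with hi
  have hI : 0 ≤ Real.log (i : ℝ) := Real.log_natCast_nonneg i
  have hN : (0 : ℝ) < N := by exact_mod_cast hperf.2
  have h4 : Real.log N ≤ (62 * k + 1) * Real.log i := by
    have h5 : (N : ℝ) ≤ (i : ℝ) ^ (62 * k + 1) := by exact_mod_cast h3
    have h6 := Real.log_le_log hN h5
    rw [Real.log_pow] at h6
    push_cast at h6
    exact h6
  have h5 : Real.log N ≤
      Real.log (i : ℝ) * min (62 * (k : ℝ) + 1) (60000 * Real.log p + 1) := by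
    rw [mul_min_of_nonneg _ _ hI]
    refine le_min ?_ ?_ <;> linarith
  have hi0 : i ≠ 0 := by
    have hM : M ≠ 0 := by
      rintro rfl
      exact hperf.2.ne' (by rw [hNM, mul_zero])
    have hs : 0 < ArithmeticFunction.sigma 1 M := by
      rw [ArithmeticFunction.sigma_one_apply]
      exact Finset.sum_pos (fun d hd => Nat.pos_of_mem_divisors hd)
        ⟨1, Nat.one_mem_divisors.mpr hM⟩
    exact (Nat.div_pos (Nat.le_of_dvd hs h1) (pow_pos hp.pos k)).ne'
  refine ⟨h1, ?_, exp_sqrt_le hi0 h2, h6, ?_⟩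
  · rw [mul_min_of_nonneg _ _ hI]
    exact le_min h2 h5
  · intro hk
    have hm : 0 < min (62 * (k : ℝ) + 1) (60000 * Real.log p + 1) := by
      have : 0 ≤ Real.log (p : ℝ) := Real.log_natCast_nonneg p
      apply lt_min <;> positivity
    exact ⟨lt_sqrt_exp hp (Pool.Agent.Lib.MP_f02ea4_nt.Idx.two_mul_lt hodd hperf hp hpM hNM
      (Nat.one_le_iff_ne_zero.mpr hk)) (exp_sqrt_le hi0 h2),
      Pool.Agent.Lib.MP_f02ea4_nt.Idx.power_saving hodd hperf hp hpM hNM hk hm h5⟩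

end Pool.Agent.Results.MP_f02ea4_nt.IndexBound
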