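import Mathlib
import Pool.Agent.Lib.MP_f02ea4_nt.TE.J8

set_option autoImplicit false

namespace Pool.Agent.Lib.MP_f02ea4_nt.Retired.LeastPrimeFactor

/-- There is an absolute constant `c > 0` such that `Ω(N) ≥ c P ^ 2` and `log N ≥ c P ^ 2 log P` for
every odd perfect number `N` with least prime factor `P`. More generally, for every `0 < ε ≤ 1` there are
`c > 0` and `K` such that: let `N = M B` be odd and perfect, `B ≠ 1` with least prime factor `P`, all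
prime factors of `M` less than `P`, `β = σ(B)/B` (so `1 < β ≤ 2`). If `v_q(N) ≤ P ^ (1 - ε)` for every
prime factor `q` of `M` with `√(log P) < q ≤ P ^ (ε / 2)`, and `P ^ (β - 1) ≥ K`, then `Ω(B) ≥ c P ^ β`
and `log B ≥ c P ^ β log P`. -/
theorem result :
    (∃ c : ℝ, 0 < c ∧ ∀ N : ℕ, Odd N → Nat.Perfect N →
      c * (N.minFac : ℝ) ^ 2 ≤ (ArithmeticFunction.cardFactors N : ℕ) ∧
      c * (N.minFac : ℝ) ^ 2 * Real.log N.minFac ≤ Real.log N) ∧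
    (∀ ε : ℝ, 0 < ε → ε ≤ 1 → ∃ c K : ℝ, 0 < c ∧
      ∀ N M B : ℕ, Odd N → Nat.Perfect N → N = M * B → B ≠ 1 →
      (∀ q : ℕ, q.Prime → q ∣ M → q < B.minFac) →
      (∀ q : ℕ, q.Prime → q ∣ M → Real.log B.minFac < (q : ℝ) ^ 2 →
        (q : ℝ) ≤ (B.minFac : ℝ) ^ (ε / 2) →
        (N.factorization q : ℝ) ≤ (B.minFac : ℝ) ^ (1 - ε)) →
      ∀ β : ℝ, β = (∑ d ∈ B.divisors, (d : ℝ)) / B → K ≤ (B.minFac : ℝ) ^ (β - 1) →
        c * (B.minFac : ℝ) ^ β ≤ (ArithmeticFunction.cardFactors B : ℕ) ∧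
        c * (B.minFac : ℝ) ^ β * Real.log B.minFac ≤ Real.log B) := by
  refine ⟨Pool.Agent.TE.norton, fun ε hε hε1 => ?_⟩
  obtain ⟨c, K, hc, _, h⟩ := Pool.Agent.TE.rough_all ε hε hε1
  refine ⟨c, K, hc, ?_⟩
  rintro N M B ho hN hMB hB1 hq1 hq2 β rfl hKP
  exact h N M B ho hN hMB hB1 hq1 hq2 hKP

end Pool.Agent.Lib.MP_f02ea4_nt.Retired.LeastPrimeFactor
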