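import Mathlib
import Pool.Agent.Lib.MP_f02ea4_nt.TC.V6
import Pool.Agent.Lib.MP_f02ea4_nt.BE.ThinUse

set_option autoImplicit false

namespace Pool.Agent.Results.MP_f02ea4_nt.SixthPowerFree

/-- `V` is the set of all odd perfect numbers `N` which are not divisible by a sixth power
`n ^ 6`, `n > 1`. The Euler prime of `N` is the prime `p` whose exponent in `N` is odd.
The children of a prime `r` are the prime factors of `σ(r ^ 4)` if `r ≡ 1 (mod 3)` and the prime
factors of `σ(r ^ 2)` if not; the descendants of `r` are `r`, its children, their children and so on.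

(1) Every `N ∈ V` is prime to `15`; it has exactly one prime `p` with odd exponent; this exponent is
`1` and `p` is `1`, `13` or `37` modulo `60`. Different `N ∈ V` have different Euler primes.
(2) Let `q ^ a`, `a > 0`, be given. The `N ∈ V` which are exactly divisible by `q ^ a` form one finite
or infinite sequence `N₁, N₂, …` such that `p_i ^ 4` exactly divides `N_j` for all `i < j`, where `p_i`
is the Euler prime of `N_i` (`ρ` gives the order). Finitely many of these sequences cover `V`.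
(3) For some `C`: at most `C log x / loglog x` elements of `V` are at most `x`, at most `C k` have at
most `k` prime factors, and at most `C y / (log y) ^ 2` have an Euler prime `p ≤ y`.
(4) Let `y` be given. All but finitely many `N ∈ V` have the following property. The Euler prime `p`
is `13` or `37` modulo `60`; `p` has infinitely many descendants, and they all are `4`, `7`, `11` or
`13` modulo `15`; for every finite set `F` of descendants of `p` there are infinitely many `N' ∈ V`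
with the same exponents as `N` at all primes `q ≤ y`, in which `r ∈ F` has the exponent `4` if
`r ≡ 1 (mod 3)` and `2` if not.
(5) For some `M`: `V` is finite if for all primes `5 < q ≤ M` and `a = 2`, `4` a prime factor of
`σ(q ^ a)` has a descendant which is `3`, `5` or `1` modulo `15`. -/
theorem result (V : Set ℕ)
    (hV : V = {N : ℕ | Odd N ∧ N.Perfect ∧ ∀ n : ℕ, n ^ 6 ∣ N → n = 1})
    (Child : ℕ → ℕ → Prop)
    (hChild : Child = fun r l : ℕ => l.Prime ∧
      l ∣ ArithmeticFunction.sigma 1 (r ^ (if r % 3 = 1 then 4 else 2))) :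
    (∀ N ∈ V, Nat.Coprime N 15 ∧ (∃! p : ℕ, Odd (N.factorization p)) ∧
      ∀ p : ℕ, Odd (N.factorization p) →
        N.factorization p = 1 ∧ (p % 60 = 1 ∨ p % 60 = 13 ∨ p % 60 = 37)) ∧
    (∀ N ∈ V, ∀ N' ∈ V, ∀ p : ℕ, Odd (N.factorization p) → Odd (N'.factorization p) → N = N') ∧
    (∀ q a : ℕ, 0 < a → ∃ ρ : ℕ → ℕ, ∀ N ∈ V, ∀ N' ∈ V,
      N.factorization q = a → N'.factorization q = a →
        (ρ N = ρ N' → N = N') ∧
        (ρ N < ρ N' → ∀ p : ℕ, Odd (N.factorization p) → N'.factorization p = 4)) ∧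
    (∃ S : Finset (ℕ × ℕ), ∀ N ∈ V, ∃ z ∈ S, 0 < z.2 ∧ N.factorization z.1 = z.2) ∧
    (∃ C : ℝ,
      (∀ x : ℝ, 3 ≤ x → ({N ∈ V | (N : ℝ) ≤ x}.ncard : ℝ) ≤
        C * (Real.log x / Real.log (Real.log x))) ∧
      (∀ k : ℕ, {N ∈ V | N.primeFactors.card ≤ k}.Finite ∧
        ({N ∈ V | N.primeFactors.card ≤ k}.ncard : ℝ) ≤ C * k) ∧
      (∀ y : ℝ, 2 ≤ y → {N ∈ V | ∃ p : ℕ, (p : ℝ) ≤ y ∧ Odd (N.factorization p)}.Finite ∧
        ({N ∈ V | ∃ p : ℕ, (p : ℝ) ≤ y ∧ Odd (N.factorization p)}.ncard : ℝ) ≤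
          C * (y / (Real.log y) ^ 2))) ∧
    (∀ y : ℕ, {N ∈ V | ∃ p : ℕ, Odd (N.factorization p) ∧
      ¬ ((p % 60 = 13 ∨ p % 60 = 37) ∧
        {r : ℕ | Relation.ReflTransGen Child p r}.Infinite ∧
        (∀ r : ℕ, Relation.ReflTransGen Child p r →
          r % 15 = 4 ∨ r % 15 = 7 ∨ r % 15 = 11 ∨ r % 15 = 13) ∧
        ∀ F : Finset ℕ, (∀ r ∈ F, Relation.ReflTransGen Child p r) →
          {N' ∈ V | (∀ q ≤ y, N'.factorization q = N.factorization q) ∧
            ∀ r ∈ F, N'.factorization r = (if r % 3 = 1 then 4 else 2)}.Infinite)}.Finite) ∧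
    (∃ M : ℕ,
      (∀ q ≤ M, q.Prime → 5 < q → ∀ a : ℕ, (a = 2 ∨ a = 4) → ∃ r x : ℕ, r.Prime ∧
        r ∣ ArithmeticFunction.sigma 1 (q ^ a) ∧ Relation.ReflTransGen Child r x ∧
        (x = 3 ∨ x = 5 ∨ x % 15 = 1)) → V.Finite) := by
  subst hV hChild
  exact ⟨fun N hN => ⟨Pool.Agent.TC.V6.cop hN, Pool.Agent.TC.V6.exists_unique hN,
      fun p hp => ⟨(Pool.Agent.TC.V6.alpha hN hp).2.1, Pool.Agent.TC.V6.mod_sixty hN hp⟩⟩,
    fun N hN N' hN' p hp hp' => Pool.Agent.TC.V6.unique hN hN' hp hp',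
    Pool.Agent.TC.V6.one_sequence, Pool.Agent.TC.V6.cover Pool.Agent.BE.thin,
    Pool.Agent.TC.V6.counts Pool.Agent.BE.thin, Pool.Agent.TC.V6.main Pool.Agent.BE.thin,
    Pool.Agent.TC.V6.check Pool.Agent.BE.thin⟩

end Pool.Agent.Results.MP_f02ea4_nt.SixthPowerFree
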