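import Mathlib
import Pool.Agent.Lib.MP_f02ea4_nt.Mg.G019

set_option autoImplicit false

namespace Pool.Agent.Results.MP_f02ea4_nt.Smoothness

/-- The large prime factors of an odd perfect number grow like a power of `log N`.  For every `j`
(and `ε > 0`) there is a constant `C` such that every odd perfect number `N` which has at most `j`
prime factors exceeding `y` satisfies `log N ≤ C * y ^ K`, where `K = 3 / 2 + ε` for `j = 0`,
`K = 2 + ε` for `j = 1` and `K = (8 * j + 10) ^ (j + 1)` for `j ≥ 2`. -/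
theorem result (j : ℕ) (ε : ℝ) (hε : 0 < ε) : ∃ C K : ℝ,
    (j = 0 → K = 3 / 2 + ε) ∧ (j = 1 → K = 2 + ε) ∧ (2 ≤ j → K = (8 * j + 10) ^ (j + 1)) ∧
    ∀ N y : ℕ, Odd N → Nat.Perfect N → 2 ≤ y → (N.primeFactors.filter (y < ·)).card ≤ j →
      Real.log N ≤ C * (y : ℝ) ^ K :=
  Pool.Agent.Lib.MP_f02ea4_nt.Sm.all_parts j ε hε

end Pool.Agent.Results.MP_f02ea4_nt.Smoothness
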