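import Mathlib
import Pool.Agent.Lib.MP_f02ea4_nt.TC.SharpT
import Pool.Agent.Lib.MP_f02ea4_nt.TC.SixB
import Pool.Agent.Lib.MP_f02ea4_nt.TC.Chain
import Pool.Agent.Lib.MP_f02ea4_nt.TC.GenCount
import Pool.Agent.Lib.MP_f02ea4_nt.TC.SixMain
import Pool.Agent.Lib.MP_f02ea4_nt.TC.SixCheck
import Pool.Agent.Lib.MP_f02ea4_nt.TC.Persist
import Pool.Agent.Lib.MP_f02ea4_nt.BE.ThinUse

set_option autoImplicit false

namespace Pool.Agent.Results.MP_f02ea4_nt.TwoExponentRigidity

/-- `N`, `N'` are odd perfect numbers, `v_q` is the exponent of the prime `q` in `N`; a component of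
`N` is a prime power `q ^ v_q`, `q ∣ N`. A prime `q ∣ N` is normal (for `d`, `e`) if `v_q ∈ {d, e}`,
`q ∤ (d + 1) (e + 1)` and `gcd (q - 1, v_q + 1) = 1`.

(1) Let `y` be given. All but finitely many `N` which are free of sixth powers and prime to `15` have
the following property. The Euler prime `p` of `N` is `13` or `37` modulo `60`. A step goes from a
prime `a` to a prime factor of `σ(a ^ 4)` if `a ≡ 1 (mod 3)` and of `σ(a ^ 2)` otherwise. Infinitely
many primes are reached from `p`, and from every prime factor of `σ(q ^ v_q)`, `q ∣ N`, `q ≤ y`. Let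
`F` be any finite set of primes which are reached from these. Then there are infinitely many `N'` free
of sixth powers and prime to `15` which have the same exponents as `N` at all `q ≤ y` and in which
every `x ∈ F` has the exponent `4` if `x ≡ 1 (mod 3)` and `2` otherwise; and every `x ∈ F` is `4`, `7`,
`11` or `13` modulo `15`. There is `M` such that there are only finitely many `N` free of sixth powers
and prime to `15`, if for all primes `5 < q ≤ M` and `a = 2`, `4` some prime factor `r` of `σ(q ^ a)`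
leads by steps to `3`, `5` or a prime which is `1` modulo `15`.
(2) Let `d`, `e` be even, `B` and `y` given, and let `T` be the set of all `N` prime to
`(d + 1) (e + 1)` such that all exponents except that of one prime `p` are `d` or `e` and `v_p ≤ B`.
All but finitely many `N ∈ T` have the following property. `gcd (p - 1, d + 1) = 1` or
`gcd (p - 1, e + 1) = 1`. A step goes from a pair `(q, b)` to `(l, d + e - b)`, `l` a prime factor of
`σ(q ^ b)`. There is `a ∈ {d, e}` such that infinitely many pairs are reached from `(p, a)` and from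
every pair `(q, v_q)`, `q ∣ N`, `q ≤ y`, `q ≠ p`, and for every finite set `F` of pairs which are
reached from these there are infinitely many `N' ∈ T`, with another special prime, which are divisible
by `p`, have the same exponents as `N` at all `q ≤ y` and in which `l` has the exponent `c` for every
`(l, c) ∈ F`. (By (10) all but finitely many `N ∈ T` have `p > y`; for these `q ≤ y` implies `q ≠ p`.)
There is `M` (for `d`, `e`) such that `T` is finite for all `B`, if for all primes `q ≤ M`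
which do not divide `2 (d + 1) (e + 1)` and `a = d`, `e` the steps from `(q, a)` lead to a pair `(l, c)`
with `c > 0` and `l ∣ (d + 1) (e + 1)`, or to two pairs `(l, c)`, `(l, c')` with `c ≠ c'`.

(3) Rigidity: if `D > 1` is a unitary divisor
of `N` and of `N'`, and all prime factors of `N / D` and of `N' / D` are normal primes of `N` resp.
`N'`, then `N = N'`. (4) `d`, `e` are even, `N` and `N'` are prime to `(d + 1) (e + 1)`, all
exponents in `N` except that of `p` and all exponents in `N'` except that of `p'` are `d` or `e`. If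
`N` and `N'` have a common component then `N = N'`, or `p ∣ N'` with another exponent than in `N`, or
`p' ∣ N` with another exponent than in `N'`. (5) The `N` as in (4) (with their primes `p`) form
finitely many chains: there are a colouring `κ` with `C` colours and a function `τ` such that
`p ∣ N'` if `κ N = κ N'` and `τ N ≤ τ N'`. (6) Let `N` and `N'` be free of sixth powers and prime to
`15`, with Euler primes `p`, `p'`. Then `v_p = 1`, `p ≡ 1 (mod 12)`; if `p = p'` then `N = N'`; if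
`N ≠ N'` have a common component then `p ^ 4` exactly divides `N'` or `p' ^ 4` exactly divides `N`.
(7) At most `3 k (5 k ^ 2 B) ^ K` odd perfect numbers with at most `k` prime factors and all exponents
at most `B` have at most `K` primes which are not normal for `d`, `e`. (8) At most
`12 * 5 ^ K (log x) ^ (3 K + 3)` odd perfect numbers up to `x` have at most `K` primes which are not
normal for `d`, `e`, for some `d` and `e`. (9) In the class of (4) there are at most `C B k` numbers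
with `v_p ≤ B` and at most `k` prime factors, and at most `C B log x / loglog x` with `v_p ≤ B` up to
`x`. (10) In the class of (4) at most `C y / (log y) ^ 2` numbers with `v_p ≤ B` have `p ≤ y`. (11) At
most `360 (log x) ^ 4` odd perfect numbers up to `x` are in the class of (4) for some even `d`, `e`.
(12) There are at most `C k ^ 9` odd perfect numbers free of sixth powers with at most `k` prime
factors, at most `C k` if they are prime to `15`; up to `x` at most `C (log x / loglog x) ^ 9` and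
`C log x / loglog x`. -/
theorem result :
    (∀ y : ℕ, {N : ℕ | Odd N ∧ N.Perfect ∧ (∀ n : ℕ, n ^ 6 ∣ N → n = 1) ∧ Nat.Coprime N 15 ∧
      ∃ p : ℕ, Odd (N.factorization p) ∧
      ¬ ((p % 60 = 13 ∨ p % 60 = 37) ∧
        (∀ r : ℕ, (r = p ∨ ∃ q ∈ N.primeFactors, q ≤ y ∧ r.Prime ∧
            r ∣ ArithmeticFunction.sigma 1 (q ^ N.factorization q)) →
          {x : ℕ | Relation.ReflTransGen (fun a b : ℕ => b.Prime ∧
            b ∣ ArithmeticFunction.sigma 1 (a ^ (if a % 3 = 1 then 4 else 2))) r x}.Infinite) ∧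
        ∀ F : Finset ℕ,
        (∀ x ∈ F, ∃ r : ℕ, (r = p ∨ ∃ q ∈ N.primeFactors, q ≤ y ∧ r.Prime ∧
            r ∣ ArithmeticFunction.sigma 1 (q ^ N.factorization q)) ∧
          Relation.ReflTransGen (fun a b : ℕ => b.Prime ∧
            b ∣ ArithmeticFunction.sigma 1 (a ^ (if a % 3 = 1 then 4 else 2))) r x) →
        {N' : ℕ | Odd N' ∧ N'.Perfect ∧ (∀ n : ℕ, n ^ 6 ∣ N' → n = 1) ∧ Nat.Coprime N' 15 ∧
          (∀ q ≤ y, N'.factorization q = N.factorization q) ∧
          ∀ x ∈ F, N'.factorization x = (if x % 3 = 1 then 4 else 2) ∧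
            (x % 15 = 4 ∨ x % 15 = 7 ∨ x % 15 = 11 ∨ x % 15 = 13)}.Infinite)}.Finite) ∧
    (∃ M : ℕ, (∀ q ≤ M, q.Prime → 5 < q → ∀ a : ℕ, (a = 2 ∨ a = 4) → ∃ r x : ℕ, r.Prime ∧
        r ∣ ArithmeticFunction.sigma 1 (q ^ a) ∧
        Relation.ReflTransGen (fun a b : ℕ => b.Prime ∧
          b ∣ ArithmeticFunction.sigma 1 (a ^ (if a % 3 = 1 then 4 else 2))) r x ∧
        (x = 3 ∨ x = 5 ∨ x % 15 = 1)) →
      {N : ℕ | Odd N ∧ N.Perfect ∧ (∀ n : ℕ, n ^ 6 ∣ N → n = 1) ∧ Nat.Coprime N 15}.Finite) ∧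
    (∀ d e B y : ℕ, Even d → Even e →
      {N : ℕ | Odd N ∧ N.Perfect ∧ Nat.Coprime N ((d + 1) * (e + 1)) ∧ ∃ p : ℕ,
        N.factorization p ≤ B ∧
        (∀ q ∈ N.primeFactors, q ≠ p → N.factorization q = d ∨ N.factorization q = e) ∧
        ¬ (¬ (¬ Nat.Coprime (p - 1) (d + 1) ∧ ¬ Nat.Coprime (p - 1) (e + 1)) ∧
          ∃ a : ℕ, (a = d ∨ a = e) ∧
          (∀ w : ℕ × ℕ, (w = (p, a) ∨ (w.1 ∈ N.primeFactors ∧ w.1 ≤ y ∧ w.1 ≠ p ∧
              w.2 = N.factorization w.1)) →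
            {z : ℕ × ℕ | Relation.ReflTransGen (fun z w : ℕ × ℕ => w.1.Prime ∧
              w.1 ∣ ArithmeticFunction.sigma 1 (z.1 ^ z.2) ∧ w.2 = d + e - z.2) w z}.Infinite) ∧
          ∀ F : Finset (ℕ × ℕ),
            (∀ z ∈ F, ∃ w : ℕ × ℕ, (w = (p, a) ∨ (w.1 ∈ N.primeFactors ∧ w.1 ≤ y ∧ w.1 ≠ p ∧
              w.2 = N.factorization w.1)) ∧
              Relation.ReflTransGen (fun z w : ℕ × ℕ => w.1.Prime ∧
                w.1 ∣ ArithmeticFunction.sigma 1 (z.1 ^ z.2) ∧ w.2 = d + e - z.2) w z) →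
            {N' : ℕ | Odd N' ∧ N'.Perfect ∧ Nat.Coprime N' ((d + 1) * (e + 1)) ∧
              (∃ p' : ℕ, p' ≠ p ∧ N'.factorization p' ≤ B ∧ ∀ q ∈ N'.primeFactors, q ≠ p' →
                N'.factorization q = d ∨ N'.factorization q = e) ∧ p ∣ N' ∧
              (∀ q ≤ y, N'.factorization q = N.factorization q) ∧
              ∀ z ∈ F, N'.factorization z.1 = z.2}.Infinite)}.Finite) ∧
    (∀ d e : ℕ, Even d → Even e → ∃ M : ℕ,
      (∀ q ≤ M, q.Prime → Nat.Coprime q (2 * ((d + 1) * (e + 1))) → ∀ a : ℕ, (a = d ∨ a = e) →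
        ∃ z w : ℕ × ℕ,
          Relation.ReflTransGen (fun z w : ℕ × ℕ => w.1.Prime ∧
            w.1 ∣ ArithmeticFunction.sigma 1 (z.1 ^ z.2) ∧ w.2 = d + e - z.2) (q, a) z ∧
          Relation.ReflTransGen (fun z w : ℕ × ℕ => w.1.Prime ∧
            w.1 ∣ ArithmeticFunction.sigma 1 (z.1 ^ z.2) ∧ w.2 = d + e - z.2) (q, a) w ∧
          ((0 < z.2 ∧ z.1 ∣ (d + 1) * (e + 1)) ∨ (z.1 = w.1 ∧ z.2 ≠ w.2))) →
      ∀ B : ℕ, {N : ℕ | Odd N ∧ N.Perfect ∧ Nat.Coprime N ((d + 1) * (e + 1)) ∧ ∃ p : ℕ,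
        N.factorization p ≤ B ∧
        ∀ q ∈ N.primeFactors, q ≠ p → N.factorization q = d ∨ N.factorization q = e}.Finite) ∧
    (∀ d e N N' D : ℕ, Odd N → N.Perfect → Odd N' → N'.Perfect → 1 < D → D ∣ N → D ∣ N' →
      Nat.Coprime D (N / D) → Nat.Coprime D (N' / D) →
      (∀ q ∈ (N / D).primeFactors, (N.factorization q = d ∨ N.factorization q = e) ∧
        ¬ q ∣ (d + 1) * (e + 1) ∧ Nat.Coprime (q - 1) (N.factorization q + 1)) →
      (∀ q ∈ (N' / D).primeFactors, (N'.factorization q = d ∨ N'.factorization q = e) ∧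
        ¬ q ∣ (d + 1) * (e + 1) ∧ Nat.Coprime (q - 1) (N'.factorization q + 1)) → N = N') ∧
    (∀ d e N N' p p' q : ℕ, Even d → Even e →
      Odd N → N.Perfect → Nat.Coprime N ((d + 1) * (e + 1)) →
      (∀ r ∈ N.primeFactors, r ≠ p → N.factorization r = d ∨ N.factorization r = e) →
      Odd N' → N'.Perfect → Nat.Coprime N' ((d + 1) * (e + 1)) →
      (∀ r ∈ N'.primeFactors, r ≠ p' → N'.factorization r = d ∨ N'.factorization r = e) →
      q ∈ N.primeFactors → q ∈ N'.primeFactors → N.factorization q = N'.factorization q →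
      N = N' ∨ (p ∣ N' ∧ N'.factorization p ≠ N.factorization p) ∨
        (p' ∣ N ∧ N.factorization p' ≠ N'.factorization p')) ∧
    (∀ d e : ℕ, Even d → Even e → ∃ (C : ℕ) (κ : ℕ → Fin C) (τ : ℕ → ℕ), ∀ N N' p p' : ℕ,
      Odd N → N.Perfect → Nat.Coprime N ((d + 1) * (e + 1)) →
      (∀ r ∈ N.primeFactors, r ≠ p → N.factorization r = d ∨ N.factorization r = e) →
      Odd N' → N'.Perfect → Nat.Coprime N' ((d + 1) * (e + 1)) →
      (∀ r ∈ N'.primeFactors, r ≠ p' → N'.factorization r = d ∨ N'.factorization r = e) →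
      κ N = κ N' → τ N ≤ τ N' → p ∣ N') ∧
    (∀ N N' p p' q : ℕ, Odd N → N.Perfect → (∀ n : ℕ, n ^ 6 ∣ N → n = 1) → Nat.Coprime N 15 →
      Odd (N.factorization p) → Odd N' → N'.Perfect → (∀ n : ℕ, n ^ 6 ∣ N' → n = 1) →
      Nat.Coprime N' 15 → Odd (N'.factorization p') →
      (N.factorization p = 1 ∧ p % 12 = 1) ∧ (p = p' → N = N') ∧
      (q ∈ N.primeFactors → q ∈ N'.primeFactors → N.factorization q = N'.factorization q →
        N = N' ∨ N'.factorization p = 4 ∨ N.factorization p' = 4)) ∧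
    (∀ d e k B K : ℕ,
      {N : ℕ | Odd N ∧ N.Perfect ∧ N.primeFactors.card ≤ k ∧
        (∀ q ∈ N.primeFactors, N.factorization q ≤ B) ∧
        (N.primeFactors.filter (fun q => ¬ ((N.factorization q = d ∨ N.factorization q = e) ∧
          ¬ q ∣ (d + 1) * (e + 1) ∧
          Nat.Coprime (q - 1) (N.factorization q + 1)))).card ≤ K}.Finite ∧
      {N : ℕ | Odd N ∧ N.Perfect ∧ N.primeFactors.card ≤ k ∧
        (∀ q ∈ N.primeFactors, N.factorization q ≤ B) ∧
        (N.primeFactors.filter (fun q => ¬ ((N.factorization q = d ∨ N.factorization q = e) ∧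
          ¬ q ∣ (d + 1) * (e + 1) ∧
          Nat.Coprime (q - 1) (N.factorization q + 1)))).card ≤ K}.ncard ≤
        3 * k * (5 * k ^ 2 * B) ^ K) ∧
    (∀ (K : ℕ) (x : ℝ), 3 ≤ x →
      ({N : ℕ | (N : ℝ) ≤ x ∧ Odd N ∧ N.Perfect ∧ ∃ d e : ℕ,
        (N.primeFactors.filter (fun q => ¬ ((N.factorization q = d ∨ N.factorization q = e) ∧
          ¬ q ∣ (d + 1) * (e + 1) ∧
          Nat.Coprime (q - 1) (N.factorization q + 1)))).card ≤ K}.ncard : ℝ) ≤
        12 * 5 ^ K * (Real.log x) ^ (3 * K + 3)) ∧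
    (∀ d e : ℕ, Even d → Even e → ∃ C : ℝ, 0 < C ∧
      (∀ k B : ℕ, {N : ℕ | Odd N ∧ N.Perfect ∧ Nat.Coprime N ((d + 1) * (e + 1)) ∧
        N.primeFactors.card ≤ k ∧ ∃ p : ℕ, N.factorization p ≤ B ∧
        ∀ q ∈ N.primeFactors, q ≠ p →
          N.factorization q = d ∨ N.factorization q = e}.Finite ∧
        ({N : ℕ | Odd N ∧ N.Perfect ∧ Nat.Coprime N ((d + 1) * (e + 1)) ∧
        N.primeFactors.card ≤ k ∧ ∃ p : ℕ, N.factorization p ≤ B ∧
        ∀ q ∈ N.primeFactors, q ≠ p →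
          N.factorization q = d ∨ N.factorization q = e}.ncard : ℝ) ≤ C * B * k) ∧
      (∀ (B : ℕ) (x : ℝ), 3 ≤ x → ({N : ℕ | (N : ℝ) ≤ x ∧ Odd N ∧ N.Perfect ∧
        Nat.Coprime N ((d + 1) * (e + 1)) ∧ ∃ p : ℕ, N.factorization p ≤ B ∧
        ∀ q ∈ N.primeFactors, q ≠ p →
          N.factorization q = d ∨ N.factorization q = e}.ncard : ℝ) ≤
        C * B * (Real.log x / Real.log (Real.log x)))) ∧
    (∀ d e B : ℕ, Even d → Even e → ∃ C : ℝ, 0 < C ∧ ∀ y : ℝ, 2 ≤ y →
      {N : ℕ | Odd N ∧ N.Perfect ∧ Nat.Coprime N ((d + 1) * (e + 1)) ∧ ∃ p : ℕ, (p : ℝ) ≤ y ∧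
        N.factorization p ≤ B ∧ ∀ q ∈ N.primeFactors, q ≠ p →
          N.factorization q = d ∨ N.factorization q = e}.Finite ∧
      ({N : ℕ | Odd N ∧ N.Perfect ∧ Nat.Coprime N ((d + 1) * (e + 1)) ∧ ∃ p : ℕ, (p : ℝ) ≤ y ∧
        N.factorization p ≤ B ∧ ∀ q ∈ N.primeFactors, q ≠ p →
          N.factorization q = d ∨ N.factorization q = e}.ncard : ℝ) ≤
        C * (y / (Real.log y) ^ 2)) ∧
    (∀ x : ℝ, 3 ≤ x → ({N : ℕ | (N : ℝ) ≤ x ∧ Odd N ∧ N.Perfect ∧ ∃ d e p : ℕ,
        Even d ∧ Even e ∧ Nat.Coprime N ((d + 1) * (e + 1)) ∧ ∀ q ∈ N.primeFactors, q ≠ p →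
          N.factorization q = d ∨ N.factorization q = e}.ncard : ℝ) ≤
        360 * (Real.log x) ^ 4) ∧
    (∃ C : ℝ, 0 < C ∧
      (∀ k : ℕ, {N : ℕ | Odd N ∧ N.Perfect ∧ (∀ n : ℕ, n ^ 6 ∣ N → n = 1) ∧
          N.primeFactors.card ≤ k}.Finite ∧
        ({N : ℕ | Odd N ∧ N.Perfect ∧ (∀ n : ℕ, n ^ 6 ∣ N → n = 1) ∧
          N.primeFactors.card ≤ k}.ncard : ℝ) ≤ C * (k : ℝ) ^ 9 ∧
        ({N : ℕ | Odd N ∧ N.Perfect ∧ (∀ n : ℕ, n ^ 6 ∣ N → n = 1) ∧
          N.primeFactors.card ≤ k ∧ Nat.Coprime N 15}.ncard : ℝ) ≤ C * k) ∧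
      (∀ x : ℝ, 3 ≤ x → ({N : ℕ | (N : ℝ) ≤ x ∧ Odd N ∧ N.Perfect ∧
          ∀ n : ℕ, n ^ 6 ∣ N → n = 1}.ncard : ℝ) ≤
          C * (Real.log x / Real.log (Real.log x)) ^ 9 ∧
        ({N : ℕ | (N : ℝ) ≤ x ∧ Odd N ∧ N.Perfect ∧ (∀ n : ℕ, n ^ 6 ∣ N → n = 1) ∧
          Nat.Coprime N 15}.ncard : ℝ) ≤ C * (Real.log x / Real.log (Real.log x)))) := by
  refine ⟨Pool.Agent.TC.six_main Pool.Agent.BE.thin, Pool.Agent.TC.six_check Pool.Agent.BE.thin,
    fun d e B y hd he => Pool.Agent.TC.pair_main Pool.Agent.BE.thin d e B y hd he,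
    fun d e hd he => Pool.Agent.TC.pair_check Pool.Agent.BE.thin d e hd he,
    Pool.Agent.TC.rigid_pair, Pool.Agent.TC.dichotomy_pair, ?_, ?_,
    fun d e k B K => Pool.Agent.TC.gen_omega d e k B K,
    fun K x hx => Pool.Agent.TC.gen_all K x hx,
    fun d e hd he => Pool.Agent.TC.count_T Pool.Agent.BE.thin d e hd he,
    fun d e B hd he => Pool.Agent.TC.euler_pair Pool.Agent.BE.thin d e B hd he,
    Pool.Agent.TC.uniform_two, ?_⟩
  · intro d e hd he
    obtain ⟨C, κ, τ, h⟩ := Pool.Agent.TC.chains Pool.Agent.BE.thin (E := {d, e})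
      (Pool.Agent.TC.P1_of_card Finset.card_le_two) (Pool.Agent.TC.even_pair hd he)
    exact ⟨C, κ, τ, fun N N' p p' a b c g a' b' c' g' hκ hτ => h N N' p p'
      (Pool.Agent.TC.clsS_pair.2 ⟨a, b, c, g⟩) (Pool.Agent.TC.clsS_pair.2 ⟨a', b', c', g'⟩)
      hκ hτ⟩
  · intro N N' p p' q ho hN h6 hc hp ho' hN' h6' hc' hp'
    have h3 : ¬ 3 ∣ N := fun h => by
      have := Nat.dvd_gcd h (show 3 ∣ 15 by norm_num)
      rw [hc] at this
      omega
    obtain ⟨-, h1, h2⟩ := Pool.Agent.TC.six_alpha ho hN h6 h3 hp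
    refine ⟨⟨h1, h2⟩, fun hpp => ?_, fun hq hq' hv => ?_⟩
    · subst hpp
      exact Pool.Agent.TC.six_unique ho hN ho' hN' h6 h6' hc hc' hp hp'
    · exact Pool.Agent.TC.six_dichotomy ho hN h6 hc hp ho' hN' h6' hc' hp' hq hq' hv
  · obtain ⟨C₁, h₁⟩ := Pool.Agent.TC.sixth Pool.Agent.BE.thin
    obtain ⟨C₂, hC₂, h₂⟩ := Pool.Agent.TC.sixth_up_to Pool.Agent.BE.thin
    refine ⟨(C₁ : ℝ) + C₂, by positivity, fun k => ?_, fun x hx => ?_⟩
    · obtain ⟨hf, ha, hb⟩ := h₁ k
      have hset : {N : ℕ | Odd N ∧ N.Perfect ∧ (∀ n : ℕ, n ^ 6 ∣ N → n = 1) ∧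
          N.primeFactors.card ≤ k ∧ Nat.Coprime N 15} =
          {N ∈ Pool.Agent.TC.SF k | Nat.Coprime N 15} := by
        ext N
        constructor
        · rintro ⟨a, b, c, d, e⟩
          exact ⟨⟨a, b, c, d⟩, e⟩
        · rintro ⟨⟨a, b, c, d⟩, e⟩
          exact ⟨a, b, c, d, e⟩
      refine ⟨hf, ?_, ?_⟩
      · have h5 : (0 : ℝ) ≤ C₂ * (k : ℝ) ^ 9 := by positivity
        calc _ ≤ (C₁ : ℝ) * (k : ℝ) ^ 9 := by exact_mod_cast ha
          _ ≤ ((C₁ : ℝ) + C₂) * (k : ℝ) ^ 9 := by nlinarith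
      · rw [hset]
        have h5 : (0 : ℝ) ≤ C₂ * (k : ℝ) := by positivity
        calc _ ≤ (C₁ : ℝ) * (k : ℝ) := by exact_mod_cast hb
          _ ≤ ((C₁ : ℝ) + C₂) * (k : ℝ) := by nlinarith
    · obtain ⟨ha, hb⟩ := h₂ x hx
      have hr := Pool.Agent.TC.ratio_pos hx
      have h6 : (0 : ℝ) ≤ C₁ := by positivity
      refine ⟨ha.trans ?_, hb.trans ?_⟩
      · have h5 : (0 : ℝ) ≤ C₁ * (Real.log x / Real.log (Real.log x)) ^ 9 := by positivity
        nlinarith
      · have h5 : (0 : ℝ) ≤ C₁ * (Real.log x / Real.log (Real.log x)) := by positivity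
        nlinarith

end Pool.Agent.Results.MP_f02ea4_nt.TwoExponentRigidity
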